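import Mathlib

namespace Pool.Agent.Results.MP_87d29b_co.Prism

open Polynomial

/-- The set of adjacency eigenvalues. -/
def Eig {n : ℕ} (A : Matrix (Fin n) (Fin n) ℝ) : Set ℝ :=
  {μ | ∃ v : Fin n → ℝ, v ≠ 0 ∧ A.mulVec v = μ • v}

/-- The inner product (1/n) tr (f(A) g(A)). -/
noncomputable def ip {n : ℕ} (A : Matrix (Fin n) (Fin n) ℝ) (f g : ℝ[X]) : ℝ :=
  (1 / (n : ℝ)) * Matrix.trace (aeval A f * aeval A g)

/-- p 0, ..., p d are the predistance polynomials (lam is the largest eigenvalue). -/
def IsPredistance {n : ℕ} (A : Matrix (Fin n) (Fin n) ℝ) (d : ℕ) (lam : ℝ) (p : ℕ → ℝ[X]) :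
    Prop :=
  (∀ i ≤ d, (p i).degree = i) ∧ (∀ i ≤ d, ∀ j ≤ d, i ≠ j → ip A (p i) (p j) = 0) ∧
    ∀ i ≤ d, ip A (p i) (p i) = (p i).eval lam

/-- Walk-regular: the number of closed walks of each length does not depend on the vertex. -/
def WalkRegular {n : ℕ} (G : SimpleGraph (Fin n)) : Prop :=
  ∀ (l : ℕ) (x y : Fin n),
    Nat.card {w : G.Walk x x // w.length = l} = Nat.card {w : G.Walk y y // w.length = l}

/-- The inequality for a graph G: with d + 1 distinct eigenvalues, the largest lam, and D < d,
every vertex has at most p_d(k) vertices at distance D. -/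
def Ineq {n : ℕ} (G : SimpleGraph (Fin n)) [DecidableRel G.Adj] (k : ℕ) : Prop :=
  ∀ (d : ℕ) (lam : ℝ) (p : ℕ → ℝ[X]), (Eig (G.adjMatrix ℝ)).ncard = d + 1 →
    IsGreatest (Eig (G.adjMatrix ℝ)) lam → IsPredistance (G.adjMatrix ℝ) d lam p →
    G.diam < d → ∀ x : Fin n, (({y | G.dist x y = G.diam}.ncard : ℕ) : ℝ) ≤ (p d).eval (k : ℝ)

def Q1 : Prop :=
  ∀ (n : ℕ) (G : SimpleGraph (Fin n)) [DecidableRel G.Adj] (k : ℕ), G.Connected →
    WalkRegular G → G.IsRegularOfDegree k → Ineq G k

def Q2 : Prop :=
  ∀ (n : ℕ) (G : SimpleGraph (Fin n)) [DecidableRel G.Adj] (k : ℕ), G.Connected →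
    G.IsRegularOfDegree k → Ineq G k

theorem result : ¬ Q1 ∧ ¬ Q2 := by
  have key : ¬ Q1 := by
    intro h
    let G : SimpleGraph (Fin 6) :=
      { Adj := fun i j => j - i = 2 ∨ j - i = 3 ∨ j - i = 4
        symm := ⟨by decide⟩
        loopless := ⟨by decide⟩ }
    let hdec : DecidableRel G.Adj := fun i j =>
      inferInstanceAs (Decidable (j - i = 2 ∨ j - i = 3 ∨ j - i = 4))
    have hadj : ∀ i j, G.Adj i j ↔ (j - i = 2 ∨ j - i = 3 ∨ j - i = 4) := fun _ _ => Iff.rfl
    set A : Matrix (Fin 6) (Fin 6) ℝ := G.adjMatrix ℝ with hAdef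
    have hA : A = !![0,0,1,1,1,0; 0,0,0,1,1,1; 1,0,0,0,1,1; 1,1,0,0,0,1; 1,1,1,0,0,0;
        0,1,1,1,0,0] := by
      ext i j
      simp only [hAdef, SimpleGraph.adjMatrix_apply, hadj]
      fin_cases i <;> fin_cases j <;> simp <;> decide
    have hA2 : A ^ 2 = !![3,2,1,0,1,2; 2,3,2,1,0,1; 1,2,3,2,1,0; 0,1,2,3,2,1; 1,0,1,2,3,2;
        2,1,0,1,2,3] := by
      rw [pow_two, hA]
      ext i j
      fin_cases i <;> fin_cases j <;> simp [Matrix.mul_apply, Fin.sum_univ_succ] <;> norm_num
    have hA3 : A ^ 3 = !![2,3,6,7,6,3; 3,2,3,6,7,6; 6,3,2,3,6,7; 7,6,3,2,3,6; 6,7,6,3,2,3;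
        3,6,7,6,3,2] := by
      rw [pow_succ, hA2, hA]
      ext i j
      fin_cases i <;> fin_cases j <;> simp [Matrix.mul_apply, Fin.sum_univ_succ] <;> norm_num
    have hdist : ∀ x y : Fin 6, G.dist x y = if x = y then 0 else if G.Adj x y then 1 else 2 := by
      intro x y
      by_cases h1 : x = y
      · simp [h1]
      by_cases h2 : G.Adj x y
      · simp [h1, h2]
      have hc : ∃ z, G.Adj x z ∧ G.Adj z y := by
        revert x y
        decide
      obtain ⟨z, hz1, hz2⟩ := hc
      have hle : G.dist x y ≤ 2 :=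
        SimpleGraph.dist_le (SimpleGraph.Walk.cons hz1 (SimpleGraph.Walk.cons hz2 .nil))
      have hr : G.Reachable x y := hz1.reachable.trans hz2.reachable
      have h0 : G.dist x y ≠ 0 := fun h0 => h1 (hr.dist_eq_zero_iff.1 h0)
      have h1' : G.dist x y ≠ 1 := fun h0 => h2 (SimpleGraph.dist_eq_one_iff_adj.1 h0)
      simp only [h1, h2, if_false]
      omega
    have hconn : G.Connected := by
      refine ⟨fun x y => ?_⟩
      by_cases h1 : x = y
      · subst h1; rfl
      apply SimpleGraph.Reachable.of_dist_ne_zero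
      rw [hdist]
      split_ifs <;> simp
    have hdiam : G.diam = 2 := by
      have hne : G.ediam ≠ ⊤ := SimpleGraph.connected_iff_ediam_ne_top.1 hconn
      apply le_antisymm
      · obtain ⟨u, v, huv⟩ := SimpleGraph.exists_dist_eq_diam (G := G)
        rw [← huv, hdist]
        split_ifs <;> simp
      · have h01 := SimpleGraph.dist_le_diam hne (u := 0) (v := 1)
        rw [hdist] at h01
        have h2 : ¬ G.Adj 0 1 := by decide
        simpa [h2] using h01
    have hshift : ∀ (l : ℕ) (c x y : Fin 6), (A ^ l) (x + c) (y + c) = (A ^ l) x y := by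
      intro l c
      induction l with
      | zero => intro x y; simp [Matrix.one_apply]
      | succ l ih =>
        intro x y
        rw [pow_succ, Matrix.mul_apply, Matrix.mul_apply,
          ← Equiv.sum_comp (Equiv.addRight c)]
        refine Finset.sum_congr rfl fun z _ => ?_
        simp only [Equiv.coe_addRight, ih]
        congr 1
        simp only [hAdef, SimpleGraph.adjMatrix_apply, hadj, add_sub_add_right_eq_sub]
    have hwr : WalkRegular G := by
      intro l x y
      have e : ∀ x : Fin 6, ((Nat.card {w : G.Walk x x // w.length = l} : ℕ) : ℝ) = (A ^ l) x x := by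
        intro x
        rw [hAdef, SimpleGraph.adjMatrix_pow_apply_eq_card_walk, Nat.card_eq_fintype_card]
        rfl
      have : (A ^ l) x x = (A ^ l) y y := by
        have := hshift l (x - y) y y
        simpa using this
      exact_mod_cast (e x).trans (this.trans (e y).symm)
    have hreg : G.IsRegularOfDegree 3 := by
      intro v
      rw [← SimpleGraph.card_neighborFinset_eq_degree, SimpleGraph.neighborFinset_eq_filter]
      have : ∀ v : Fin 6, (Finset.univ.filter fun w : Fin 6 =>
          w - v = 2 ∨ w - v = 3 ∨ w - v = 4).card = 3 := by decide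
      exact this v
    have hE : Eig A = {3, 1, 0, -2} := by
      ext μ
      constructor
      · rintro ⟨v, hv, hμ⟩
        rw [hA] at hμ
        have e0 := congrFun hμ 0
        have e1 := congrFun hμ 1
        have e2 := congrFun hμ 2
        have e3 := congrFun hμ 3
        have e4 := congrFun hμ 4
        have e5 := congrFun hμ 5
        simp [Matrix.mulVec, dotProduct, Fin.sum_univ_succ] at e0 e1 e2 e3 e4 e5
        by_contra hne
        simp only [Set.mem_insert_iff, Set.mem_singleton_iff, not_or] at hne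
        obtain ⟨n3, n1, n0, n2⟩ := hne
        have hs : v 0 + v 1 + v 2 + v 3 + v 4 + v 5 = 0 := by
          have : (μ - 3) * (v 0 + v 1 + v 2 + v 3 + v 4 + v 5) = 0 := by
            linear_combination -(e0 + e1 + e2 + e3 + e4 + e5)
          exact (mul_eq_zero.1 this).resolve_left (sub_ne_zero.2 n3)
        have ht : v 0 - v 1 + v 2 - v 3 + v 4 - v 5 = 0 := by
          have : (μ - 1) * (v 0 - v 1 + v 2 - v 3 + v 4 - v 5) = 0 := by
            linear_combination -(e0 - e1 + e2 - e3 + e4 - e5)
          exact (mul_eq_zero.1 this).resolve_left (sub_ne_zero.2 n1)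
        have hm : μ * (μ + 2) ≠ 0 := mul_ne_zero n0 (fun h => n2 (by linarith))
        have z : ∀ a b : ℝ, b - a = μ * a → a - b = μ * b → a = 0 := by
          intro a b h1 h2
          have : μ * (μ + 2) * a = 0 := by linear_combination -(μ + 1) * h1 - h2
          exact (mul_eq_zero.1 this).resolve_left hm
        apply hv
        have q0 : v 0 = 0 := z (v 0) (v 3) (by linarith) (by linarith)
        have q3 : v 3 = 0 := z (v 3) (v 0) (by linarith) (by linarith)
        have q1 : v 1 = 0 := z (v 1) (v 4) (by linarith) (by linarith)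
        have q4 : v 4 = 0 := z (v 4) (v 1) (by linarith) (by linarith)
        have q2 : v 2 = 0 := z (v 2) (v 5) (by linarith) (by linarith)
        have q5 : v 5 = 0 := z (v 5) (v 2) (by linarith) (by linarith)
        ext i
        fin_cases i <;> simpa
      · intro hμ
        simp only [Set.mem_insert_iff, Set.mem_singleton_iff] at hμ
        rcases hμ with rfl | rfl | rfl | rfl
        · refine ⟨![1,1,1,1,1,1], fun h => by simpa using congrFun h 0, ?_⟩
          rw [hA]; ext i
          fin_cases i <;> simp [Matrix.mulVec, dotProduct, Fin.sum_univ_succ] <;> norm_num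
        · refine ⟨![1,-1,1,-1,1,-1], fun h => by simpa using congrFun h 0, ?_⟩
          rw [hA]; ext i
          fin_cases i <;> simp [Matrix.mulVec, dotProduct, Fin.sum_univ_succ]
        · refine ⟨![1,0,-1,1,0,-1], fun h => by simpa using congrFun h 0, ?_⟩
          rw [hA]; ext i
          fin_cases i <;> simp [Matrix.mulVec, dotProduct, Fin.sum_univ_succ]
        · refine ⟨![1,0,-1,-1,0,1], fun h => by simpa using congrFun h 0, ?_⟩
          rw [hA]; ext i
          fin_cases i <;> simp [Matrix.mulVec, dotProduct, Fin.sum_univ_succ] <;> norm_num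
    have hcard : (Eig A).ncard = 3 + 1 := by
      rw [hE, Set.ncard_insert_of_notMem (by norm_num), Set.ncard_insert_of_notMem (by norm_num),
        Set.ncard_insert_of_notMem (by norm_num), Set.ncard_singleton]
    have hgr : IsGreatest (Eig A) 3 := by
      rw [hE]
      refine ⟨by simp, fun x hx => ?_⟩
      simp only [Set.mem_insert_iff, Set.mem_singleton_iff] at hx
      rcases hx with rfl | rfl | rfl | rfl <;> norm_num
    let q : ℝ → ℝ → ℝ → ℝ → ℝ[X] := fun a b c e => C a * X ^ 3 + C b * X ^ 2 + C c * X + C e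
    have hip : ∀ a b c e a' b' c' e', ip A (q a b c e) (q a' b' c' e') =
        143 * a * a' + 30 * (a * b' + b * a') + 19 * (a * c' + b * b' + c * a') +
          2 * (a * e' + b * c' + c * b' + e * a') + 3 * (b * e' + c * c' + e * b') + e * e' := by
      intro a b c e a' b' c' e'
      have hq : ∀ a b c e, aeval A (q a b c e) = a • A ^ 3 + b • A ^ 2 + c • A + e • 1 := by
        intro a b c e
        simp [q, Algebra.algebraMap_eq_smul_one]
      rw [ip, hq, hq, hA3, hA2, hA]
      simp [Matrix.trace, Matrix.mul_apply, Fin.sum_univ_succ, Matrix.one_apply]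
      ring
    let p : ℕ → ℝ[X] := fun i => if i = 0 then q 0 0 0 1 else if i = 1 then q 0 0 1 0 else
      if i = 2 then q 0 (6 / 13) (-4 / 13) (-18 / 13) else
        q (1 / 5) (-17 / 65) (-71 / 65) (5 / 13)
    have hp : IsPredistance A 3 3 p := by
      refine ⟨fun i hi => ?_, fun i hi j hj hij => ?_, fun i hi => ?_⟩
      · interval_cases i
        · simp [p, q]
        · simp [p, q]
        · simp only [p, q]
          norm_num
          compute_degree!
          simp [coeff_X, coeff_C]
        · simp only [p, q]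
          norm_num
          compute_degree!
          simp [coeff_X, coeff_C]
      · interval_cases i <;> interval_cases j <;> simp [p, hip] at hij ⊢ <;> norm_num
      · interval_cases i <;> simp only [p] <;> norm_num [hip] <;> simp [q] <;> norm_num
    have hfin := h 6 G 3 hconn hwr hreg 3 3 p hcard hgr hp (by rw [hdiam]; norm_num) 0
    have hone : 1 ≤ {y | G.dist 0 y = G.diam}.ncard := by
      apply (Set.ncard_pos (Set.toFinite _)).2
      refine ⟨1, ?_⟩
      have h2 : ¬ G.Adj 0 1 := by decide
      simp [hdist, hdiam, h2]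
    have hev : (p 3).eval ((3 : ℕ) : ℝ) = 2 / 13 := by
      simp [p, q]; norm_num
    rw [hev] at hfin
    have : (1 : ℝ) ≤ (({y | G.dist 0 y = G.diam}.ncard : ℕ) : ℝ) := by exact_mod_cast hone
    linarith
  exact ⟨key, fun h => key fun n G _ k hc _ hr => h n G k hc hr⟩

end Pool.Agent.Results.MP_87d29b_co.Prism
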